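import Pool.Agent.Q218.EA.Hn

/-!
# Edwards-Anderson ground states and cheap cuts

The sites are the points of a countable set `X`; the bond `e : E` joins `a e` and `b e`.  We
consider the Edwards-Anderson Hamiltonian on an infinite connected region `R` of this graph with
independent couplings without atoms.
-/

set_option autoImplicit false

open MeasureTheory Filter Topology

namespace Pool.Agent.Results.MP_37ff18_mp.CheapCuts

/-- A spin configuration on the region `R`: it is `1` or `-1` at the sites of `R`, and `0` at the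
other sites (so that the bonds which leave `R` do not contribute to the energy). -/
def IsConfiguration {X : Type} (R : Set X) (σ : X → ℝ) : Prop :=
  (∀ x ∈ R, σ x = 1 ∨ σ x = -1) ∧ ∀ x, x ∉ R → σ x = 0

/-- `σ` is an infinite-volume ground state on `R` for the couplings `J`: every change at finitely
many sites of `R` (at least one) increases the energy `- ∑ J e σ (a e) σ (b e)`. -/
def IsGroundState {X E : Type} (a b : E → X) (R : Set X) (J : E → ℝ) (σ : X → ℝ) : Prop :=
  IsConfiguration R σ ∧ ∀ ρ : X → ℝ, IsConfiguration R ρ → {x | ρ x ≠ σ x}.Finite → ρ ≠ σ →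
    0 < ∑ᶠ e, J e * (σ (a e) * σ (b e) - ρ (a e) * ρ (b e))

/-- The bonds of the region `R` which join `S` and its complement. -/
def boundary {X E : Type} (a b : E → X) (R : Set X) (S : Finset X) : Set E :=
  {e | a e ∈ R ∧ b e ∈ R ∧ ((a e ∈ S ∧ b e ∉ S) ∨ (a e ∉ S ∧ b e ∈ S))}

/-- Every finite set of sites is contained in a finite set whose boundary bonds in `R` have a total
absolute coupling less than `ε`, for every `ε > 0`. -/
def HasCheapCuts {X E : Type} (a b : E → X) (R : Set X) (J : E → ℝ) : Prop :=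
  ∀ (Λ : Finset X) (ε : ℝ), 0 < ε → ∃ S : Finset X, Λ ⊆ S ∧
    ∑ᶠ (e : E) (_ : e ∈ boundary a b R S), |J e| < ε

/-- The region is connected: every nonempty proper subset is joined to its complement in `R` by a
bond. -/
def IsConnected {X E : Type} (a b : E → X) (R : Set X) : Prop :=
  ∀ D : Set X, D ⊆ R → D.Nonempty → D ≠ R →
    ∃ e : E, (a e ∈ D ∧ b e ∈ R ∧ b e ∉ D) ∨ (b e ∈ D ∧ a e ∈ R ∧ a e ∉ D)

/-- The two-sided horn of width `w` in `ℤ^(k+1)`: the points `v` with `|v i| ≤ w |v 0|` for all
`i ≠ 0`. -/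
def twoSidedHorn (k : ℕ) (w : ℕ → ℕ) : Set (Fin (k + 1) → ℤ) :=
  {v | ∀ i : Fin k, |v i.succ| ≤ (w (v 0).natAbs : ℤ)}

open Pool.Agent.Q218.EA

theorem cheap_iff {X E : Type} {a b : E → X} {R : Set X}
    (hfib : ∀ x, {e | a e = x ∨ b e = x}.Finite) {J : E → ℝ} (h : HasCheapCuts a b R J) :
    Cheap hfib R J := by
  intro Λ k
  obtain ⟨S, hS, h1⟩ := h Λ (1 / ((k : ℝ) + 1)) (by positivity)
  refine ⟨S, hS, ?_⟩
  unfold cw
  rwa [← finsum_mem_eq_finite_toFinset_sum]

/-- **Ground states and cheap cuts.**

(1) Let `R` be an infinite connected region of a locally finite graph, and let the couplings be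
independent with arbitrary laws without atoms.  Almost surely: if every finite set of sites is
enclosed by boundaries of arbitrarily small total coupling, then there is exactly one pair
`σ, -σ` of ground states on `R`.

(2) Let moreover the couplings be i.i.d. of a law with `0` in its support, and let every finite set
of sites be contained in a finite set with at most `m` boundary bonds (bottlenecks of bounded
size).  Then almost surely there is exactly one pair of ground states.

(3) Let `μ` be a law without atoms with `μ [-t, t] ≥ c t ^ C` for `0 < t ≤ 1`, and let `w` be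
nondecreasing with `(w n + 1) ^ k log (w n + 2) = o(log n)`.  For almost every realisation of
i.i.d. couplings of law `μ` on the bonds of `ℤ^(k+1)` there is exactly one pair of ground states
on the two-sided horn of width `w`. -/
theorem result :
    (∀ (X E : Type) [Countable X] [Countable E] (a b : E → X),
      (∀ x, {e | a e = x ∨ b e = x}.Finite) → ∀ R : Set X, R.Infinite → IsConnected a b R →
      ∀ (μ : E → Measure ℝ) [∀ e, IsProbabilityMeasure (μ e)], (∀ e x, μ e {x} = 0) →
      ∀ᵐ J ∂(Measure.infinitePi μ), HasCheapCuts a b R J →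
        ∃ σ : X → ℝ, {ρ | IsGroundState a b R J ρ} = {σ, -σ}) ∧
    (∀ (X E : Type) [Countable X] [Countable E] (a b : E → X),
      (∀ x, {e | a e = x ∨ b e = x}.Finite) → ∀ R : Set X, R.Infinite → IsConnected a b R →
      ∀ (μ : Measure ℝ) [IsProbabilityMeasure μ], (∀ x, μ {x} = 0) →
      (∀ t : ℝ, 0 < t → μ (Set.Icc (-t) t) ≠ 0) →
      ∀ m : ℕ, (∀ Λ : Finset X, ∃ S : Finset X, Λ ⊆ S ∧ (boundary a b R S).ncard ≤ m) →
      ∀ᵐ J ∂(Measure.infinitePi fun _ : E => μ),
        ∃ σ : X → ℝ, {ρ | IsGroundState a b R J ρ} = {σ, -σ}) ∧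
    (∀ (k : ℕ) (w : ℕ → ℕ), Monotone w →
      Tendsto (fun n : ℕ => ((w n : ℝ) + 1) ^ k * Real.log ((w n : ℝ) + 2) / Real.log n) atTop
        (𝓝 0) →
      ∀ (μ : Measure ℝ) [IsProbabilityMeasure μ], (∀ x, μ {x} = 0) →
      ∀ c C : ℝ, 0 < c → 0 ≤ C →
      (∀ t : ℝ, 0 < t → t ≤ 1 → ENNReal.ofReal (c * t ^ C) ≤ μ (Set.Icc (-t) t)) →
      ∀ᵐ J ∂(Measure.infinitePi fun _ : (Fin (k + 1) → ℤ) × Fin (k + 1) => μ),
        ∃ σ : (Fin (k + 1) → ℤ) → ℝ,
          {ρ | IsGroundState (fun e : (Fin (k + 1) → ℤ) × Fin (k + 1) => e.1)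
            (fun e => e.1 + (Pi.single e.2 (1 : ℤ) : Fin (k + 1) → ℤ)) (twoSidedHorn k w) J ρ} =
              {σ, -σ}) := by
  refine ⟨?_, ?_, ?_⟩
  · intro X E _ _ a b hfib R hR hconn μ _ hat
    filter_upwards [main hfib hat hR hconn] with J hJ hc
    exact hJ (cheap_iff hfib hc)
  · intro X E _ _ a b hfib R hR hconn μ _ hat h0 m hb
    filter_upwards [main (μ := fun _ : E => μ) hfib (fun _ => hat) hR hconn,
      cheap_of_bottlenecks hfib (R := R) h0 m hb] with J hJ hc
    exact hJ hc
  · intro k w hw hg μ _ hat c C hc hC hlow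
    filter_upwards [main (μ := fun _ : (Fin (k + 1) → ℤ) × Fin (k + 1) => μ)
      (a := Pool.Agent.TH761.EB.aa) (b := Pool.Agent.TH761.EB.bb) (R := horn2 k w)
      Pool.Agent.TH761.EB.horn_fib (fun _ => hat) (horn2_inf k w) horn2_conn,
      cheap_of_blocks (a := Pool.Agent.TH761.EB.aa) (b := Pool.Agent.TH761.EB.bb)
        (R := horn2 k w) (μ0 := μ) Pool.Agent.TH761.EB.horn_fib (bx_mono hw)
        (fun n e he => bd_horn_ends hw n e he) (fun x => by
          refine ⟨∑ i, (x i).natAbs, ?_⟩
          rw [mem_bx]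
          have h1 : ∀ i, (x i).natAbs ≤ ∑ i, (x i).natAbs := fun i =>
            Finset.single_le_sum (f := fun i => (x i).natAbs) (fun _ _ => Nat.zero_le _)
              (Finset.mem_univ i)
          refine ⟨?_, fun i => ?_⟩
          · rw [Int.abs_eq_natAbs]
            exact_mod_cast h1 0
          · rw [Int.abs_eq_natAbs]
            exact_mod_cast (h1 i.succ).trans (Nat.le_add_right _ _))
        (fun n => 2 * (2 * w n + 1) ^ k) (fun n => bd_horn_card hw n)
        (fun ε hε => horn_div hc hC hlow hg hε)] with J hJ hch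
    exact hJ hch

end Pool.Agent.Results.MP_37ff18_mp.CheapCuts
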