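import Pool.Agent.Q248.GS.Baire

/-!
# MP_37ff18_mp: topologically generic couplings have exactly one pair of ground states

Let `d ≥ 2` and let `K` be a closed set of real numbers without isolated points such that the quotients
`v / |u|`, `u, v ∈ K`, `v > 0`, are unbounded (for example the support of a symmetric atomless law which
contains `0` or is unbounded). In the sense of Baire category almost all couplings with values in `K`
on the bonds of `ℤ^d` have exactly one pair `σ, -σ` of ground states: the couplings with another number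
of ground states form a meagre set.
-/

set_option autoImplicit false

open Filter

namespace Pool.Agent.Results.MP_37ff18_mp.GenericCouplings

/-- The bond `(v, i)` joins the sites `v` and `v + e_i` of `ℤ^d`. -/
abbrev Bond (d : ℕ) : Type := (Fin d → ℤ) × Fin d

/-- The second end `v + e_i` of the bond `(v, i)`. -/
def other {d : ℕ} (e : Bond d) : Fin d → ℤ := e.1 + (Pi.single e.2 (1 : ℤ) : Fin d → ℤ)

/-- `σ` is an infinite-volume ground state for the couplings `J`: every change at finitely many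
sites (at least one) increases the energy `-∑ J_e σ σ` (the sum of the differences over all bonds
is a finite sum). -/
def IsGroundState {d : ℕ} (J : Bond d → ℝ) (σ : (Fin d → ℤ) → ℝ) : Prop :=
  (∀ x, σ x = 1 ∨ σ x = -1) ∧
  ∀ ρ : (Fin d → ℤ) → ℝ, (∀ x, ρ x = 1 ∨ ρ x = -1) → {x | ρ x ≠ σ x}.Finite → ρ ≠ σ →
    0 < ∑ᶠ e : Bond d, J e * (σ e.1 * σ (other e) - ρ e.1 * ρ (other e))

lemma gs_iff {d : ℕ} {J : Bond d → ℝ} {σ : (Fin d → ℤ) → ℝ} :
    IsGroundState J σ ↔ Pool.Agent.TH761.EB.GS Pool.Agent.Q248.GS.aa Pool.Agent.Q248.GS.bb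
      Set.univ J σ := by
  have hcf : ∀ ρ : (Fin d → ℤ) → ℝ, Pool.Agent.TH761.EB.Cf Set.univ ρ ↔ ∀ x, ρ x = 1 ∨ ρ x = -1 :=
    fun ρ => ⟨fun h x => h.1 x (Set.mem_univ x),
      fun h => ⟨fun x _ => h x, fun x hx => absurd (Set.mem_univ x) hx⟩⟩
  unfold IsGroundState Pool.Agent.TH761.EB.GS
  rw [hcf]
  refine and_congr_right fun _ => forall_congr' fun ρ => ?_
  rw [hcf]
  rfl

theorem result (d : ℕ) (hd : 2 ≤ d) (K : Set ℝ) (hK : Perfect K)
    (hratio : ∀ N : ℕ, ∃ u ∈ K, ∃ v ∈ K, N * |u| < v) :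
    IsMeagre {J : Bond d → K | ¬ ∃ σ : (Fin d → ℤ) → ℝ,
      {ρ | IsGroundState (fun e => (J e : ℝ)) ρ} = {σ, -σ}} := by
  rw [IsMeagre]
  have h := Pool.Agent.Q248.GS.generic hd hK hratio
  filter_upwards [h] with J hJ
  rw [Set.mem_compl_iff, Set.mem_ofPred_eq, not_not]
  simpa only [gs_iff] using hJ

end Pool.Agent.Results.MP_37ff18_mp.GenericCouplings
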