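import Pool.Agent.Q248.GS.Often

/-!
# MP_37ff18_mp: domain walls of incongruent ground states are not contained in a sparse set of bonds

Let `d ≥ 2` and let `Y` be a fixed set of bonds of `ℤ^d` which contains boundedly many bonds of
infinitely many spheres `max |x_i| = r`. Almost surely two ground states of the Edwards-Anderson model
which are satisfied on the same bonds outside `Y` are equal up to a global flip.
-/

set_option autoImplicit false

open MeasureTheory Filter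

namespace Pool.Agent.Results.MP_37ff18_mp.SparseDomainWalls

/-- The bond `(v, i)` joins the sites `v` and `v + e_i` of `ℤ^d`. -/
abbrev Bond (d : ℕ) : Type := (Fin d → ℤ) × Fin d

/-- The second end `v + e_i` of the bond `(v, i)`. -/
def other {d : ℕ} (e : Bond d) : Fin d → ℤ := e.1 + (Pi.single e.2 (1 : ℤ) : Fin d → ℤ)

/-- `σ` is an infinite-volume ground state for the couplings `J`: every change at finitely many
sites (at least one) increases the energy `-∑ J_e σ σ` (the sum of the differences over all bonds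
is a finite sum). -/
def IsGroundState {d : ℕ} (J : Bond d → ℝ) (σ : (Fin d → ℤ) → ℝ) : Prop :=
  (∀ x, σ x = 1 ∨ σ x = -1) ∧
  ∀ ρ : (Fin d → ℤ) → ℝ, (∀ x, ρ x = 1 ∨ ρ x = -1) → {x | ρ x ≠ σ x}.Finite → ρ ≠ σ →
    0 < ∑ᶠ e : Bond d, J e * (σ e.1 * σ (other e) - ρ e.1 * ρ (other e))

/-- The site `x` lies on the sphere `max |x_i| = r`. -/
def OnSphere {d : ℕ} (r : ℕ) (x : Fin d → ℤ) : Prop :=
  (∀ i, |x i| ≤ (r : ℤ)) ∧ ∃ i, |x i| = (r : ℤ)

/-- The bonds of the sphere `max |x_i| = r`: both ends lie on it. -/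
def sphereBonds (d : ℕ) (r : ℕ) : Set (Bond d) := {e | OnSphere r e.1 ∧ OnSphere r (other e)}

/-- The domain wall between `σ` and `τ`: the bonds which are satisfied in one of them and not in the
other. -/
def wall {d : ℕ} (σ τ : (Fin d → ℤ) → ℝ) : Set (Bond d) :=
  {e | σ e.1 * σ (other e) ≠ τ e.1 * τ (other e)}

lemma gs_iff {d : ℕ} {J : Bond d → ℝ} {σ : (Fin d → ℤ) → ℝ} :
    IsGroundState J σ ↔ Pool.Agent.TH761.EB.GS Pool.Agent.Q248.GS.aa Pool.Agent.Q248.GS.bb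
      Set.univ J σ := by
  have hcf : ∀ ρ : (Fin d → ℤ) → ℝ, Pool.Agent.TH761.EB.Cf Set.univ ρ ↔ ∀ x, ρ x = 1 ∨ ρ x = -1 :=
    fun ρ => ⟨fun h x => h.1 x (Set.mem_univ x),
      fun h => ⟨fun x _ => h x, fun x hx => absurd (Set.mem_univ x) hx⟩⟩
  unfold IsGroundState Pool.Agent.TH761.EB.GS
  rw [hcf]
  refine and_congr_right fun _ => forall_congr' fun ρ => ?_
  rw [hcf]
  rfl

theorem result (d : ℕ) (hd : 2 ≤ d) (μ : Measure ℝ) [IsProbabilityMeasure μ] (Y : Set (Bond d)) :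
    -- boundedly many bonds in infinitely many spheres
    (∀ (M : ℕ) (ε : ℝ), 0 ≤ ε → 0 < μ (Set.Icc (-ε) ε) → 0 < μ (Set.Ioi ((4 * d * M : ℕ) * ε)) →
      (∃ᶠ r : ℕ in atTop, (Y ∩ sphereBonds d r).ncard ≤ M) →
      ∀ᵐ J ∂(Measure.infinitePi fun _ : Bond d => μ), ∀ σ τ : (Fin d → ℤ) → ℝ,
        IsGroundState J σ → IsGroundState J τ → wall σ τ ⊆ Y → τ = σ ∨ τ = -σ) ∧
    -- a general criterion
    (∀ (r M : ℕ → ℕ) (ε : ℕ → ℝ), (∀ k, r k + 2 ≤ r (k + 1)) → (∀ k, 0 ≤ ε k) →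
      (∀ k, (Y ∩ sphereBonds d (r k)).ncard ≤ M k) →
      ∑' k, μ (Set.Ioi ((4 * d * M k : ℕ) * ε k)) ^ M k *
        μ (Set.Icc (-ε k) (ε k)) ^ (4 * d * M k) = ⊤ →
      ∀ᵐ J ∂(Measure.infinitePi fun _ : Bond d => μ), ∀ σ τ : (Fin d → ℤ) → ℝ,
        IsGroundState J σ → IsGroundState J τ → wall σ τ ⊆ Y → τ = σ ∨ τ = -σ) := by
  have gen : ∀ (r M : ℕ → ℕ) (ε : ℕ → ℝ), (∀ k, r k + 2 ≤ r (k + 1)) → (∀ k, 0 ≤ ε k) →
      (∀ k, (Y ∩ sphereBonds d (r k)).ncard ≤ M k) →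
      ∑' k, μ (Set.Ioi ((4 * d * M k : ℕ) * ε k)) ^ M k *
        μ (Set.Icc (-ε k) (ε k)) ^ (4 * d * M k) = ⊤ →
      ∀ᵐ J ∂(Measure.infinitePi fun _ : Bond d => μ), ∀ σ τ : (Fin d → ℤ) → ℝ,
        IsGroundState J σ → IsGroundState J τ → wall σ τ ⊆ Y → τ = σ ∨ τ = -σ := by
    intro r M ε hr hε hM hsum
    filter_upwards [Pool.Agent.Q248.GS.walls hd μ Y r M ε hr hε (fun k => hM k) hsum] with J hJ
    intro σ τ hσ hτ hw
    exact hJ σ τ (gs_iff.1 hσ) (gs_iff.1 hτ) (fun e he => hw he)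
  refine ⟨?_, gen⟩
  intro M ε hε h1 h2 hfr
  obtain ⟨φ, hφ, hφM⟩ := extraction_of_frequently_atTop hfr
  refine gen (fun k => φ (2 * k)) (fun _ => M) (fun _ => ε) ?_ (fun _ => hε)
    (fun k => hφM (2 * k)) ?_
  · intro k
    have a1 := hφ (show 2 * k < 2 * k + 1 by omega)
    have a2 := hφ (show 2 * k + 1 < 2 * (k + 1) by omega)
    show φ (2 * k) + 2 ≤ φ (2 * (k + 1))
    omega
  · rw [ENNReal.tsum_const_eq_top_of_ne_zero]
    exact mul_ne_zero (pow_ne_zero _ h2.ne') (pow_ne_zero _ h1.ne')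

end Pool.Agent.Results.MP_37ff18_mp.SparseDomainWalls
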