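import Pool.Agent.Q218.TB.Erg

/-!
# Edwards-Anderson ground states on two-sided tubes, for stationary ergodic couplings

The sites are the points `(n, x)` of `ℤ × V`, for a finite connected graph `V` (for instance a box
or a torus of `ℤ^(d-1)`).  The law of the couplings is any probability measure which is ergodic
under the shift along the tube, for which almost surely no signed sum of finitely many couplings
vanishes and which gives positive probability to all finite patterns of weak and strong couplings.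
Then there is almost surely exactly one pair of infinite-volume ground states.
-/

set_option autoImplicit false

open MeasureTheory

namespace Pool.Agent.Results.MP_37ff18_mp.TwoSidedTubes

variable {V I : Type} {s t : I → V}

/-- The product of the two spins of a bond: the bond `(n, inl x)` joins the sites `(n, x)` and
`(n + 1, x)`; the bond `(n, inr i)` joins the sites `(n, s i)` and `(n, t i)`. -/
def bondProduct (s t : I → V) (σ : ℤ × V → ℝ) : ℤ × (V ⊕ I) → ℝ
  | (n, Sum.inl x) => σ (n, x) * σ (n + 1, x)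
  | (n, Sum.inr i) => σ (n, s i) * σ (n, t i)

/-- Spin configurations. -/
def IsConfiguration (σ : ℤ × V → ℝ) : Prop := ∀ v, σ v = 1 ∨ σ v = -1

/-- `σ` is an infinite-volume ground state for the couplings `J`: every change at finitely many
sites (at least one) increases the energy `- ∑ J_e σ σ`.  (The sum of the differences over all the
bonds is a finite sum.) -/
def IsGroundState (s t : I → V) (J : ℤ × (V ⊕ I) → ℝ) (σ : ℤ × V → ℝ) : Prop :=
  IsConfiguration σ ∧ ∀ ρ : ℤ × V → ℝ, IsConfiguration ρ → {v | ρ v ≠ σ v}.Finite → ρ ≠ σ →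
    0 < ∑ᶠ e : ℤ × (V ⊕ I), J e * (bondProduct s t σ e - bondProduct s t ρ e)

/-- The finite graph with vertex set `V` and with the edges `i : I` from `s i` to `t i` is
connected. -/
def IsConnected (s t : I → V) : Prop :=
  ∀ A : Set V, (∀ i, s i ∈ A ↔ t i ∈ A) → A = ∅ ∨ A = Set.univ

theorem bondProduct_eq (σ : ℤ × V → ℝ) (e : ℤ × (V ⊕ I)) :
    bondProduct s t σ e = Pool.Agent.TH761.EA.bd s t σ e := by
  obtain ⟨n, x | i⟩ := e <;> rfl

/-- the energy difference as a difference of finite sums -/
theorem finsum_eq [Fintype V] [Fintype I] {J : ℤ × (V ⊕ I) → ℝ} {σ ρ : ℤ × V → ℝ} {p q : ℤ}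
    (h : ∀ n x, n ≤ p ∨ q ≤ n → ρ (n, x) = σ (n, x)) :
    ∑ᶠ e : ℤ × (V ⊕ I), J e * (bondProduct s t σ e - bondProduct s t ρ e) =
      Pool.Agent.TH761.EA.S s t J σ p q - Pool.Agent.TH761.EA.S s t J ρ p q := by
  rw [finsum_eq_sum_of_support_subset (s := Finset.Ico p q ×ˢ (Finset.univ : Finset (V ⊕ I)))]
  · unfold Pool.Agent.TH761.EA.S Pool.Agent.TH761.EA.en
    rw [Finset.sum_product, ← Finset.sum_sub_distrib]
    refine Finset.sum_congr rfl fun n _ => ?_
    rw [← Finset.sum_sub_distrib]
    refine Finset.sum_congr rfl fun c _ => ?_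
    rw [bondProduct_eq, bondProduct_eq]
    ring
  · intro e he
    rw [Function.mem_support] at he
    rw [Finset.coe_product, Set.mem_prod, Finset.coe_Ico, Set.mem_Ico]
    refine ⟨?_, Finset.mem_coe.2 (Finset.mem_univ _)⟩
    by_contra hcon
    apply he
    obtain ⟨n, x | i⟩ := e
    · simp only [bondProduct]
      have h1 : n + 1 ≤ p ∨ q ≤ n := by
        simp only at hcon
        omega
      rw [h n x (by omega), h (n + 1) x (by omega), sub_self, mul_zero]
    · simp only [bondProduct]
      have h1 : n < p ∨ q ≤ n := by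
        simp only at hcon
        omega
      rw [h n (s i) (by omega), h n (t i) (by omega), sub_self, mul_zero]

theorem isGroundState_iff [Fintype V] [Fintype I] {J : ℤ × (V ⊕ I) → ℝ} {σ : ℤ × V → ℝ} :
    IsGroundState s t J σ ↔ Pool.Agent.TH761.EA.Gr s t J σ := by
  constructor
  · rintro ⟨h1, h2⟩
    refine ⟨h1, fun p q ρ hρ hb hne => ?_⟩
    have h3 := h2 ρ hρ ?_ hne
    · rw [finsum_eq hb] at h3
      linarith
    · apply Set.Finite.subset ((Set.finite_Icc p q).prod (Set.finite_univ (α := V)))
      rintro ⟨n, x⟩ hv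
      refine ⟨?_, Set.mem_univ _⟩
      by_contra hcon
      apply hv
      apply hb
      rw [Set.mem_Icc] at hcon
      simp only at hcon
      omega
  · rintro ⟨h1, h2⟩
    refine ⟨h1, fun ρ hρ hfin hne => ?_⟩
    obtain ⟨a, ha⟩ := (hfin.image Prod.fst).bddAbove
    obtain ⟨b, hb⟩ := (hfin.image Prod.fst).bddBelow
    have h3 : ∀ n x, n ≤ b - 1 ∨ a + 1 ≤ n → ρ (n, x) = σ (n, x) := by
      intro n x hn
      by_contra hcon
      have h4 : n ∈ Prod.fst '' {v | ρ v ≠ σ v} := ⟨(n, x), hcon, rfl⟩
      have h5 := ha h4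
      have h6 := hb h4
      omega
    rw [finsum_eq h3]
    have := h2 _ _ ρ hρ h3 hne
    linarith

theorem isGroundState_neg {J : ℤ × (V ⊕ I) → ℝ} {σ : ℤ × V → ℝ} (h : IsGroundState s t J σ) :
    IsGroundState s t J (-σ) := by
  have hb : ∀ (τ : ℤ × V → ℝ) (e : ℤ × (V ⊕ I)),
      bondProduct s t (-τ) e = bondProduct s t τ e := by
    rintro τ ⟨n, x | i⟩ <;> simp [bondProduct]
  have hc : ∀ τ : ℤ × V → ℝ, IsConfiguration τ → IsConfiguration (-τ) := by
    intro τ hτ v
    rcases hτ v with h1 | h1
    · right; simp [h1]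
    · left; simp [h1]
  refine ⟨hc σ h.1, fun ρ hρ hfin hne => ?_⟩
  have h1 := h.2 (-ρ) (hc ρ hρ) ?_ ?_
  · simp only [hb] at h1 ⊢
    exact h1
  · refine hfin.subset fun v hv hcon => hv ?_
    rw [Pi.neg_apply, hcon, Pi.neg_apply, neg_neg]
  · intro hcon
    apply hne
    rw [← hcon, neg_neg]

/-- The shift of the couplings along the tube. -/
def shift (J : ℤ × (V ⊕ I) → ℝ) : ℤ × (V ⊕ I) → ℝ := fun e => J (e.1 + 1, e.2)

/-- The couplings `J` are generic: no sum of finitely many (at least one) of them, with signs,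
vanishes. -/
def IsGeneric (J : ℤ × (V ⊕ I) → ℝ) : Prop :=
  ∀ (T : Finset (ℤ × (V ⊕ I))) (k : ℤ × (V ⊕ I) → ℝ), T.Nonempty →
    (∀ e, k e = 1 ∨ k e = -1) → ∑ e ∈ T, k e * J e ≠ 0

/-- Every finite pattern of weak couplings (in `(0, c)`) and strong couplings (in `(c, N)`) has
positive probability. -/
def HasPatterns (P : Measure (ℤ × (V ⊕ I) → ℝ)) (c N : ℝ) : Prop :=
  ∀ A B : Finset (ℤ × (V ⊕ I)), Disjoint A B →
    0 < P {J | (∀ e ∈ A, 0 < J e ∧ J e < c) ∧ ∀ e ∈ B, c < J e ∧ J e < N}

/-- **Theorem.** Let `V` be a finite nonempty connected graph and let `P` be a probability law of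
couplings on the bonds of the two-sided tube `ℤ × V` which is ergodic under the shift along the
tube, with almost surely generic couplings, such that for some `0 < c < N` every finite pattern of
couplings in `(0, c)` and in `(c, N)` has positive probability.  Then almost surely there is exactly
one pair `σ, -σ` of ground states. -/
theorem result {V I : Type} [Fintype V] [Nonempty V] [Fintype I] (s t : I → V)
    (hconn : IsConnected s t) (P : Measure (ℤ × (V ⊕ I) → ℝ)) [IsProbabilityMeasure P]
    (herg : Ergodic shift P) (hgen : ∀ᵐ J ∂P, IsGeneric J)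
    (c N : ℝ) (hc : 0 < c) (hpat : HasPatterns P c N) :
    ∀ᵐ J ∂P, ∃ σ : ℤ × V → ℝ, {ρ | IsGroundState s t J ρ} = {σ, -σ} := by
  have hH : ∀ f : V → ℝ, (∀ i, f (s i) = f (t i)) → ∀ x y, f x = f y := by
    intro f hf x y
    rcases hconn {z | f z = f y} (fun i => by simp [hf i]) with h | h
    · have : y ∈ ({z | f z = f y} : Set V) := rfl
      rw [h] at this
      exact absurd this (Set.notMem_empty _)
    · have : x ∈ ({z | f z = f y} : Set V) := by rw [h]; exact Set.mem_univ _
      exact this
  filter_upwards [Pool.Agent.Q218.TB.main (s := s) (t := t) P herg hgen hc hpat hH] with J hJ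
  obtain ⟨σ, hσ, huniq⟩ := hJ
  refine ⟨σ, ?_⟩
  ext ρ
  rw [Set.mem_setOf_eq, Set.mem_insert_iff, Set.mem_singleton_iff]
  constructor
  · intro h
    exact huniq ρ (isGroundState_iff.1 h)
  · rintro (h | h)
    · rw [h]; exact isGroundState_iff.2 hσ
    · rw [h]; exact isGroundState_neg (isGroundState_iff.2 hσ)

end Pool.Agent.Results.MP_37ff18_mp.TwoSidedTubes
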